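import Mathlib

set_option autoImplicit false

namespace Pool.Agent.Results.MP_e2e219_gt.Product

open Set

/-- specialization order: `x ≤ y` iff `x ∈ cl {y}` -/
def sle {X : Type} [TopologicalSpace X] (x y : X) : Prop := x ∈ closure {y}

/-- strong `d`-spaces -/
def StrongD (X : Type) [TopologicalSpace X] : Prop :=
  ∀ (D : Set X) (x : X) (U : Set X), D.Nonempty →
    (∀ a ∈ D, ∀ b ∈ D, ∃ c ∈ D, sle a c ∧ sle b c) → IsOpen U →
    (⋂ d ∈ D, {y | sle d y}) ∩ {y | sle x y} ⊆ U → ∃ d ∈ D, {y | sle d y} ∩ {y | sle x y} ⊆ U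

/-- rank: `0` is the bottom, `1` and `2` are in the middle, all `n ≥ 3` are maximal -/
def rk (n : ℕ) : ℕ := if n = 0 then 0 else if n < 3 then 1 else 2

def le' (a b : ℕ) : Prop := a = b ∨ rk a < rk b

def Y : Type := ℕ

theorem le'_trans {a b c : ℕ} (h1 : le' a b) (h2 : le' b c) : le' a c := by
  rcases h1 with rfl | h1
  · exact h2
  · rcases h2 with rfl | h2
    · exact Or.inr h1
    · exact Or.inr (h1.trans h2)

instance : TopologicalSpace Y where
  IsOpen U := ∀ a b : ℕ, le' a b → a ∈ U → b ∈ U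
  isOpen_univ _ _ _ _ := trivial
  isOpen_inter _ _ hs ht a b h ha := ⟨hs a b h ha.1, ht a b h ha.2⟩
  isOpen_sUnion _ hs a b h := fun ⟨t, h1, h2⟩ => ⟨t, h1, hs t h1 a b h h2⟩

theorem up_open (a : ℕ) : IsOpen (show Set Y from {b | le' a b}) := fun _ _ h hb => le'_trans hb h

theorem sle_iff (a b : Y) : sle a b ↔ le' a b := by
  rw [sle, mem_closure_iff]
  constructor
  · intro h
    obtain ⟨c, h1, rfl⟩ := h _ (up_open a) (Or.inl rfl)
    exact h1
  · intro h o ho ha
    exact ⟨b, ho a b h ha, rfl⟩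

theorem t0 : T0Space Y := by
  refine ⟨fun a b h => ?_⟩
  have h1 : le' a b := (h.mem_open_iff (up_open a)).1 (Or.inl rfl)
  have h2 : le' b a := (h.mem_open_iff (up_open b)).2 (Or.inl rfl)
  rcases h1 with h1 | h1
  · exact h1
  · rcases h2 with h2 | h2
    · exact h2.symm
    · omega

theorem strong : StrongD Y := by
  intro D x U hne hd _ h
  obtain ⟨m, hm, hmax⟩ := Set.Finite.exists_maximalFor' rk D
    ((finite_Iic 2).subset (by
      rintro _ ⟨a, -, rfl⟩
      simp only [mem_Iic, rk]; split_ifs <;> omega)) hne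
  refine ⟨m, hm, fun y hy => h ⟨mem_iInter₂.2 (fun d hd' => ?_), hy.2⟩⟩
  obtain ⟨c, hc, h1, h2⟩ := hd d hd' m hm
  have h3 := hy.1
  simp only [mem_setOf_eq, sle_iff] at h1 h2 h3 ⊢
  rcases h2 with rfl | h2
  · exact le'_trans h1 h3
  · have := hmax hc h2.le
    omega

theorem sle_pi (a b : ℕ → Y) : sle a b ↔ ∀ i, le' (a i) (b i) := by
  rw [sle, ← specializes_iff_mem_closure, specializes_pi]
  simp only [specializes_iff_mem_closure]
  exact forall_congr' (fun i => sle_iff _ _)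

theorem result : ∃ (X : ℕ → Type) (_ : ∀ i, TopologicalSpace (X i)),
    (∀ i, T0Space (X i) ∧ StrongD (X i)) ∧ ¬ StrongD (∀ i, X i) := by
  refine ⟨fun _ => Y, inferInstance, fun _ => ⟨t0, strong⟩, fun h => ?_⟩
  let d : ℕ → ℕ → Y := fun n i => if i < n then (1 : ℕ) else (0 : ℕ)
  have hd : ∀ m n, m ≤ n → sle (d m) (d n) := fun m n hmn => (sle_pi _ _).2 (fun i => by
    simp only [d, le', rk]; split_ifs <;> first | omega | simp_all)
  have hop : ∀ a i : ℕ, IsOpen {z : ℕ → Y | le' a (z i)} := fun a i =>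
    (up_open a).preimage (continuous_apply (A := fun _ : ℕ => Y) i)
  have h3le : ∀ w : ℕ, le' 2 w → le' 1 w → ∃ k, w = k + 3 := by
    intro w a b
    refine ⟨w - 3, ?_⟩
    by_contra hc
    have : w < 3 := by omega
    interval_cases w <;> simp [le', rk] at a b
  obtain ⟨_, ⟨n, rfl⟩, hn⟩ := h (range d) (fun _ => (2 : ℕ))
    (⋃ k : ℕ, {z | le' (k + 3) (z 0)} ∩ ⋂ i ∈ Finset.range (k + 1), {z | le' 1 (z i)})
    (range_nonempty d) (by
      rintro _ ⟨m, rfl⟩ _ ⟨n, rfl⟩
      exact ⟨_, ⟨max m n, rfl⟩, hd _ _ (le_max_left _ _), hd _ _ (le_max_right _ _)⟩)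
    (isOpen_iUnion (fun k => (hop _ 0).inter
      (isOpen_biInter_finset (fun i _ => hop _ i)))) (by
      rintro z ⟨h1, h2⟩
      have h3 : ∀ i, le' 1 (z i) := fun i => by
        have := (sle_pi _ _).1 (mem_iInter₂.1 h1 _ ⟨i + 1, rfl⟩) i
        simpa [d] using this
      have h4 := (sle_pi _ _).1 h2 0
      have h5 := h3 0
      obtain ⟨k, hk⟩ := h3le _ h4 h5
      exact mem_iUnion.2 ⟨k, Or.inl hk.symm, mem_iInter₂.2 (fun i _ => h3 i)⟩)
  let z : ℕ → Y := fun i => if i < n + 1 then (n + 4 : ℕ) else (2 : ℕ)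
  have hz := hn (a := z) ⟨(sle_pi _ _).2 (fun i => by
      simp only [d, z, le', rk]; split_ifs <;> first | omega | simp_all),
    (sle_pi _ _).2 (fun i => by
      simp only [z, le', rk]; split_ifs <;> first | omega | simp_all)⟩
  obtain ⟨k, h1, h2⟩ := mem_iUnion.1 hz
  have h3 : le' (k + 3) (n + 4) := by simpa [z] using h1
  have h4 : k = n + 1 := by
    simp only [le', rk] at h3
    split_ifs at h3 <;> omega
  have h5 := mem_iInter₂.1 h2 (n + 1) (by simp [h4])
  simp [z, le', rk] at h5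

end Pool.Agent.Results.MP_e2e219_gt.Product
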